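import Pool.Agent.H23.ResGen

set_option autoImplicit false
set_option maxSynthPendingDepth 3

namespace Pool.Agent.Results.MP_49fec2_al.NotResidually

open Pool.Agent.H23.ResGen

/-- The word `w` (in countably many variables) is a law of the group `G`. -/
def IsLaw (w : FreeGroup ℕ) (G : Type) [Group G] : Prop :=
  ∀ f : FreeGroup ℕ →* G, f w = 1

/-- `G` lies in the variety defined by the set of laws `W`. -/
def InVariety (W : Set (FreeGroup ℕ)) (G : Type) [Group G] : Prop :=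
  ∀ w ∈ W, IsLaw w G

/-- `A` generates the variety defined by `W`: the groups of that variety are exactly the groups
satisfying all laws of `A`. -/
def Generates (W : Set (FreeGroup ℕ)) (A : Type) [Group A] : Prop :=
  ∀ (G : Type) [Group G], InVariety W G ↔ ∀ w, IsLaw w A → IsLaw w G

/-- The verbal subgroup of the free group of rank `n`, generated by all values of words of `W`. -/
def verbal (W : Set (FreeGroup ℕ)) (n : ℕ) : Subgroup (FreeGroup (Fin n)) :=
  Subgroup.normalClosure {x | ∃ w ∈ W, ∃ f : FreeGroup ℕ →* FreeGroup (Fin n), f w = x}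

instance (W : Set (FreeGroup ℕ)) (n : ℕ) : (verbal W n).Normal :=
  Subgroup.normalClosure_normal

/-- The relatively free group of rank `n` of the variety defined by `W`. -/
abbrev RelFree (W : Set (FreeGroup ℕ)) (n : ℕ) : Type := FreeGroup (Fin n) ⧸ verbal W n

lemma exists_lift {ι A B : Type} [Group A] [Group B] (π : A →* B) (hπ : Function.Surjective π)
    (f : FreeGroup ι →* B) : ∃ f' : FreeGroup ι →* A, ∀ w, π (f' w) = f w := by
  choose s hs using hπ
  refine ⟨FreeGroup.lift fun i => s (f (FreeGroup.of i)), fun w => ?_⟩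
  have : π.comp (FreeGroup.lift fun i => s (f (FreeGroup.of i))) = f := by
    ext i; simp [hs]
  exact DFunLike.congr_fun this w

/-- evaluation -/
def ev {A : Type} [Group A] {n : ℕ} (τ : Fin n → A) : RelFree {w | IsLaw w A} n →* A :=
  QuotientGroup.lift _ (FreeGroup.lift τ) (Subgroup.normalClosure_le_normal (by
    rintro _ ⟨w, hw, f, rfl⟩
    exact hw ((FreeGroup.lift τ).comp f)))

lemma ev_of {A : Type} [Group A] {n : ℕ} (τ : Fin n → A) (i : Fin n) :
    ev τ (QuotientGroup.mk (FreeGroup.of i)) = τ i := by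
  simp [ev]

lemma ev_inj {A : Type} [Group A] {n : ℕ} (g : RelFree {w | IsLaw w A} n)
    (h : ∀ τ : Fin n → A, ev τ g = 1) : g = 1 := by
  obtain ⟨x, rfl⟩ := QuotientGroup.mk_surjective g
  refine (QuotientGroup.eq_one_iff x).mpr (Subgroup.subset_normalClosure
    ⟨FreeGroup.map Fin.val x, fun f => ?_,
      FreeGroup.lift fun i => if h : i < n then FreeGroup.of ⟨i, h⟩ else 1, ?_⟩)
  · have e : f.comp (FreeGroup.map Fin.val) =
        FreeGroup.lift fun i : Fin n => f (FreeGroup.of i.val) := by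
      ext i; simp
    exact (DFunLike.congr_fun e x).trans (h _)
  · have e : (FreeGroup.lift fun i => if h : i < n then FreeGroup.of (⟨i, h⟩ : Fin n) else 1).comp
        (FreeGroup.map Fin.val) = MonoidHom.id _ := by
      ext i : 1; simp
    exact DFunLike.congr_fun e x

lemma generates {A : Type} [Group A] {k : ℕ} (τ : Fin k → A)
    (hτ : Function.Surjective (FreeGroup.lift τ)) :
    Generates {w | IsLaw w A} (RelFree {w | IsLaw w A} k) := by
  intro G _
  refine ⟨fun h w hw => h w fun f => ?_, fun h w hw => h w fun f => ?_⟩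
  · obtain ⟨f', hf⟩ := exists_lift (ev τ) (fun a => by
      obtain ⟨x, rfl⟩ := hτ a
      exact ⟨QuotientGroup.mk x, rfl⟩) f
    rw [← hf, hw f', map_one]
  · obtain ⟨f', hf⟩ := exists_lift (QuotientGroup.mk' _) (QuotientGroup.mk'_surjective _) f
    rw [← hf]
    exact (QuotientGroup.eq_one_iff _).mpr (Subgroup.subset_normalClosure ⟨w, hw, f', rfl⟩)

/-- the two-generator group whose variety is used -/
def G0 : Subgroup U := (FreeGroup.lift ![gs, gt]).range

lemma gs_mem : gs ∈ G0 := ⟨FreeGroup.of 0, by simp⟩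
lemma gt_mem : gt ∈ G0 := ⟨FreeGroup.of 1, by simp⟩

theorem result : ∃ (W : Set (FreeGroup ℕ)) (k n : ℕ), k < n ∧ Generates W (RelFree W k) ∧
    ∃ g : RelFree W n, g ≠ 1 ∧ ∀ (N : Subgroup (RelFree W n)) [N.Normal],
      (∃ s : Finset (RelFree W n ⧸ N), s.card ≤ k ∧
        Subgroup.closure (s : Set (RelFree W n ⧸ N)) = ⊤) → g ∈ N := by
  classical
  refine ⟨{w | IsLaw w G0}, 2, 3, by norm_num,
    generates ![⟨gs, gs_mem⟩, ⟨gt, gt_mem⟩] ?_, ?_⟩
  · rintro ⟨_, x, rfl⟩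
    refine ⟨x, Subtype.ext ?_⟩
    have e : G0.subtype.comp (FreeGroup.lift ![⟨gs, gs_mem⟩, ⟨gt, gt_mem⟩]) =
        FreeGroup.lift ![gs, gt] := by
      ext i : 1; fin_cases i <;> simp
    exact DFunLike.congr_fun e x
  let τ0 : Fin 3 → G0 := ![⟨gt, gt_mem⟩, ⟨gs * gs, G0.mul_mem gs_mem gs_mem⟩,
    ⟨gs * gt * gs * gt⁻¹, G0.mul_mem (G0.mul_mem (G0.mul_mem gs_mem gt_mem) gs_mem)
      (G0.inv_mem gt_mem)⟩]
  let x : Fin 3 → RelFree {w | IsLaw w G0} 3 := fun i => QuotientGroup.mk (FreeGroup.of i)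
  let E := G0.subtype.comp (ev τ0)
  have x0 : E (x 0) = gt := congrArg Subtype.val (ev_of τ0 0)
  have x1 : E (x 1) = gs * gs := congrArg Subtype.val (ev_of τ0 1)
  have x2 : E (x 2) = gs * gt * gs * gt⁻¹ := congrArg Subtype.val (ev_of τ0 2)
  have xj : E (x 0 * x 1 * (x 0)⁻¹ * (x 1)⁻¹) = gj := by
    rw [map_mul, map_mul, map_mul, map_inv, map_inv, x0, x1]; rfl
  have hH : ∀ g, E g ∈ H := by
    intro g
    obtain ⟨y, rfl⟩ := QuotientGroup.mk_surjective g
    induction y using FreeGroup.induction_on with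
    | C1 => simp
    | of i =>
      fin_cases i
      exacts [x0 ▸ f9.1, x1 ▸ f9.2.1, x2 ▸ f9.2.2]
    | inv_of i hi => rw [QuotientGroup.mk_inv, map_inv]; exact H.inv_mem hi
    | mul a b ha hb => rw [QuotientGroup.mk_mul, map_mul]; exact H.mul_mem ha hb
  obtain ⟨w, hw, hN⟩ := exists_elt (fun τ : Fin 3 → G0 => G0.subtype.comp (ev τ))
    (fun g h => ev_inj g fun τ => Subtype.ext (h τ)) M f1 f2 f3 τ0 (x 0)
    (x 0 * x 1 * (x 0)⁻¹ * (x 1)⁻¹) (by show E _ ^ 8 ≠ 1; rw [x0]; exact f7)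
    (by show ∀ m ∈ M, E _ * m * (E _)⁻¹ = _; rw [xj]; exact f4)
    (by show E _ * E _ ∈ M; rw [xj]; exact f5)
  refine ⟨w, hw, fun N _ ⟨s, hs, hcl⟩ => by_contra fun hwN => ?_⟩
  have h1 : ∀ q ∈ N, gj⁻¹ * E q ∉ M := fun q hq => xj ▸ hN N hwN q hq
  have hcomm : ∀ y, ∀ q ∈ N, y * q * y⁻¹ * q⁻¹ ∈ N := fun y q hq =>
    N.mul_mem (Subgroup.Normal.conj_mem ‹_› q hq y) (N.inv_mem hq)
  have h2 : ∀ q ∈ N, ∀ l, ch l (E q).s (E q).e1 (E q).e2 = 0 := by
    intro q hq
    refine f6 _ (hH q) (h1 q hq) ?_ ?_ ?_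
    · rw [← map_mul]; exact h1 _ (N.mul_mem hq hq)
    · have := h1 _ (hcomm (x 0) q hq)
      rwa [map_mul, map_mul, map_mul, map_inv, map_inv, x0] at this
    · have := h1 _ (hcomm (x 1) q hq)
      rwa [map_mul, map_mul, map_mul, map_inv, map_inv, x1] at this
  obtain ⟨a, b, hab⟩ : ∃ a b : RelFree {w | IsLaw w G0} 3,
      ∀ y ∈ s, y = QuotientGroup.mk a ∨ y = QuotientGroup.mk b := by
    obtain h | h | h : s.card = 0 ∨ s.card = 1 ∨ s.card = 2 := by omega
    · exact ⟨1, 1, by simp [Finset.card_eq_zero.mp h]⟩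
    · obtain ⟨a, rfl⟩ := Finset.card_eq_one.mp h
      obtain ⟨a, rfl⟩ := QuotientGroup.mk_surjective a
      exact ⟨a, a, by simp⟩
    · obtain ⟨a, b, -, rfl⟩ := Finset.card_eq_two.mp h
      obtain ⟨a, rfl⟩ := QuotientGroup.mk_surjective a
      obtain ⟨b, rfl⟩ := QuotientGroup.mk_surjective b
      exact ⟨a, b, by simp⟩
  obtain ⟨l, la, lb, hl⟩ := f8 (E a).s (E b).s (E a).e1 (E a).e2 (E b).e1 (E b).e2
  let χ := (chi l).comp (E.codRestrict H hH)
  have hχ : ∀ g, χ g = 1 ↔ ch l (E g).s (E g).e1 (E g).e2 = 0 := fun g => Iff.rfl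
  let χ' := QuotientGroup.lift N χ fun q hq => (hχ q).mpr (h2 q hq l)
  have h3 : Subgroup.closure (s : Set (_ ⧸ N)) ≤ χ'.ker := by
    rw [Subgroup.closure_le]
    intro y hy
    rcases hab y hy with rfl | rfl
    exacts [(hχ a).mpr la, (hχ b).mpr lb]
  have h4 : ∀ g, ch l (E g).s (E g).e1 (E g).e2 = 0 := fun g =>
    (hχ g).mp (h3 (hcl ▸ Subgroup.mem_top (QuotientGroup.mk g : _ ⧸ N)))
  rcases hl with h | h | h
  exacts [h (x0 ▸ h4 _), h (x1 ▸ h4 _), h (x2 ▸ h4 _)]

end Pool.Agent.Results.MP_49fec2_al.NotResidually
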